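import Pool.Agent.H94.Tak2

set_option autoImplicit false

open Filter Topology
open scoped ZeroAtInfty

namespace Pool.Agent.Results.MP_c0f49b_an.TakagiGraph

/-- The Takagi function. -/
noncomputable def takagi (t : ℝ) : ℝ :=
  ∑' n : ℕ, (1 / 2 : ℝ) ^ n * Metric.infDist (2 ^ n * t) (Set.range (Int.cast : ℤ → ℝ))

/-- The unweighted backward shift on the space of sequences tending to zero. -/
def shift {𝕜 : Type} [RCLike 𝕜] (x : C₀(ℕ, 𝕜)) : C₀(ℕ, 𝕜) where
  toFun := fun n => x (n + 1)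
  continuous_toFun := continuous_of_discreteTopology
  zero_at_infty' := by
    have := x.zero_at_infty'
    rw [cocompact_eq_cofinite, Nat.cofinite_eq_atTop] at this ⊢
    exact this.comp (tendsto_add_atTop_nat 1)

/-- The operator `e ^ x B × e ^ y B`. -/
noncomputable def op {𝕜 : Type} [RCLike 𝕜] (x y : ℝ) (z : C₀(ℕ, 𝕜) × C₀(ℕ, 𝕜)) :
    C₀(ℕ, 𝕜) × C₀(ℕ, 𝕜) :=
  (((Real.exp x : ℝ) : 𝕜) • shift z.1, ((Real.exp y : ℝ) : 𝕜) • shift z.2)

theorem result (𝕜 : Type) [RCLike 𝕜] (a b : ℝ) (ha : 0 < a) (hb : 0 < b) :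
    ∃ z : C₀(ℕ, 𝕜) × C₀(ℕ, 𝕜), ∀ t ∈ Set.Icc (0 : ℝ) 1,
      Dense (Set.range fun k : ℕ => (op (a + t) (b + takagi t))^[k] z) := by
  obtain ⟨z, hz⟩ := Pool.Agent.H94.Tak.final 𝕜 a b ha hb
  refine ⟨z, fun t ht => ?_⟩
  have it : ∀ (x y : ℝ) (k n : ℕ),
      ((op x y)^[k] z).1 n = ((Real.exp (k * x) : ℝ) : 𝕜) * z.1 (n + k) ∧
      ((op x y)^[k] z).2 n = ((Real.exp (k * y) : ℝ) : 𝕜) * z.2 (n + k) := by
    intro x y k
    induction k with
    | zero => intro n; simp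
    | succ k ih =>
      intro n
      rw [Function.iterate_succ_apply']
      have e : ∀ r : ℝ, Real.exp (((k + 1 : ℕ) : ℝ) * r) = Real.exp r * Real.exp (k * r) := by
        intro r; rw [← Real.exp_add]; congr 1; push_cast; ring
      have e2 : n + (k + 1) = n + 1 + k := by omega
      constructor
      · change ((Real.exp x : ℝ) : 𝕜) * ((op x y)^[k] z).1 (n + 1) = _
        rw [(ih (n + 1)).1, e, e2, RCLike.ofReal_mul, mul_assoc]
      · change ((Real.exp y : ℝ) : 𝕜) * ((op x y)^[k] z).2 (n + 1) = _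
        rw [(ih (n + 1)).2, e, e2, RCLike.ofReal_mul, mul_assoc]
  rw [Metric.dense_iff]
  rintro ⟨u, v⟩ r hr
  obtain ⟨k, hk⟩ := hz t ht u v (r / 2) (by positivity)
  refine ⟨_, ?_, k, rfl⟩
  rw [Metric.mem_ball, Prod.dist_eq, dist_eq_norm, dist_eq_norm]
  refine max_lt (lt_of_le_of_lt (Pool.Agent.H94.Tak.norm_le1 _ (r / 2) (by positivity)
    fun n => ?_) (by linarith)) (lt_of_le_of_lt (Pool.Agent.H94.Tak.norm_le1 _ (r / 2)
    (by positivity) fun n => ?_) (by linarith))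
  · simp only [ZeroAtInftyContinuousMap.coe_sub, Pi.sub_apply]
    rw [(it _ _ k n).1]
    exact (hk n).1
  · simp only [ZeroAtInftyContinuousMap.coe_sub, Pi.sub_apply]
    rw [(it _ _ k n).2]
    exact (hk n).2

end Pool.Agent.Results.MP_c0f49b_an.TakagiGraph
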